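import Pool.Agent.Y996.NL.Stm
import Pool.Agent.W405.NC.G2

/-!
Project NL: a chain from an attached set to a large distance (`S_U1`).
-/

set_option autoImplicit false

namespace Pool.Agent.Z932.NL

open H974 Finset Pool.Agent.W819.EN Pool.Agent.W819.NC
open Pool.Agent.Y996.RD (EN last_in reach_in)
open Pool.Agent.Y996.NL
open Pool.Agent.W38.EN (DA_ex circ_v touch2 reach_chain)

theorem fc_self (v : Vtx) : nmv v (fc v) = 0 := by
  unfold nmv fc
  simp

theorem start_eq {v p : ℤ × ℤ} (h : nmv v p ≤ 0) : p = fc v := by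
  unfold nmv at h
  have a1 := abs_nonneg (p.1 - (v.1 + v.2))
  have a2 := abs_nonneg (p.2 - (v.1 - v.2))
  have b1 : p.1 - (v.1 + v.2) = 0 := abs_eq_zero.1 (by linarith)
  have b2 : p.2 - (v.1 - v.2) = 0 := abs_eq_zero.1 (by linarith)
  unfold fc
  exact Prod.ext (by simp only; linarith) (by simp only; linarith)

theorem nmv_box {v x : Vtx} {R : ℤ} (h : inR (v.1 - R) (v.1 + R) (v.2 - R) (v.2 + R) x) :
    nmv v (fc x) ≤ 2 * R := by
  unfold inR at h
  unfold nmv fc
  simp only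
  rcases abs_cases (x.1 + x.2 - (v.1 + v.2)) with ⟨h1, _⟩ | ⟨h1, _⟩ <;>
  rcases abs_cases (x.1 - x.2 - (v.1 - v.2)) with ⟨h2, _⟩ | ⟨h2, _⟩ <;>
    rw [h1, h2] <;> omega

theorem u1 : S_U1 := by
  classical
  intro G F P v a R hFG hA haR
  obtain ⟨hvP, hpath⟩ := hA
  obtain ⟨p, q, hp, hq, hch⟩ : DA G v a R (NG G v a R) := Nat.sInf_mem (DA_ex G v a R)
  rcases Nat.eq_zero_or_pos a with ha | ha
  · subst ha
    have hpv : p = fc v := start_eq (by simpa using hp)
    refine ⟨v, hvP, q, ?_, hq, ?_⟩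
    · rw [fc_self]
      simp
    · have hW : WA Wc F v 0 = 0 := by
        unfold WA
        rw [if_pos rfl]
      rw [hW, add_zero, ← hpv]
      exact hch
  · obtain ⟨u, hu, hr⟩ := hpath ha
    have hW : WA Wc F v a = 2 + 8 * sInf {k | Cir v a k F} := by
      unfold WA Wc
      rw [if_neg (by omega)]
    have hC : Cir v a (sInf {k | Cir v a k F}) F :=
      Nat.sInf_mem (s := {k | Cir v a k F}) (Pool.Agent.W405.NC.cir_ex F v a)
    set k := sInf {k | Cir v a k F} with hk
    obtain ⟨⟨⟨Xa, _, ka, La⟩, ⟨Xb, _, kb, Lb⟩⟩, ⟨Xc, _, kc, Lc⟩, ⟨Xd, _, kd, Ld⟩⟩ := hC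
    set X : Finset Edg := Xa ∪ Xb ∪ Xc ∪ Xd with hX
    have ta : Xa ⊆ X := Finset.subset_union_left.trans (Finset.subset_union_left.trans
      Finset.subset_union_left)
    have tb : Xb ⊆ X := Finset.subset_union_right.trans (Finset.subset_union_left.trans
      Finset.subset_union_left)
    have tc : Xc ⊆ X := Finset.subset_union_right.trans Finset.subset_union_left
    have td : Xd ⊆ X := Finset.subset_union_right
    have hcard : X.card ≤ 4 * k := by
      have h1 := Finset.card_union_le (Xa ∪ Xb ∪ Xc) Xd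
      have h2 := Finset.card_union_le (Xa ∪ Xb) Xc
      have h3 := Finset.card_union_le Xa Xb
      show (Xa ∪ Xb ∪ Xc ∪ Xd).card ≤ 4 * k
      omega
    set E : Finset Edg := F ∪ X with hE
    obtain ⟨z, hz⟩ := circ_v (v := v) (R1 := (a : ℤ)) (R2 := 2 * (a : ℤ)) (by omega) (by omega)
      (E := E) (La.mono (Finset.union_subset_union_right ta))
      (Lb.mono (Finset.union_subset_union_right tb))
      (Lc.mono (Finset.union_subset_union_right tc))
      (Ld.mono (Finset.union_subset_union_right td))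
    -- the path in `P` meets the circuit
    obtain ⟨w', k1, k2, k3⟩ := first_exit (a := v.1 - 2 * (a : ℤ)) (b := v.1 + 2 * (a : ℤ))
      (c := v.2 - 2 * (a : ℤ)) (d := v.2 + 2 * (a : ℤ)) (by unfold inR; omega) hr (by
        rcases hu with hu | hu
        · rcases abs_cases (u.1 - v.1) with ⟨h1, _⟩ | ⟨h1, _⟩ <;> rw [h1] at hu <;> omega
        · rcases abs_cases (u.2 - v.2) with ⟨h1, _⟩ | ⟨h1, _⟩ <;> rw [h1] at hu <;> omega)
    set F1 : Finset Edg := E ∪ (bx v (2 * (a : ℤ))).filter (fun e => e ∈ EN P) with hF1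
    have h1 : Reach ((↑F1 : Set Edg) ∩ ↑(bx v (2 * (a : ℤ)))) v w' := by
      refine k3.mono ?_
      rintro e ⟨he1, he2⟩
      refine ⟨?_, he2⟩
      rw [hF1, Finset.mem_coe, Finset.mem_union, Finset.mem_filter]
      exact Or.inr ⟨Finset.mem_coe.mp he2, he1⟩
    have h2 := hz F1 Finset.subset_union_left v w' (by unfold inR; omega) k2 h1
    have hzb : inR (v.1 - 2 * (a : ℤ)) (v.1 + 2 * (a : ℤ)) (v.2 - 2 * (a : ℤ))
        (v.2 + 2 * (a : ℤ)) z :=
      reach_in (G := ↑F1) (by unfold inR; omega) h2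
    have g3 : (↑F1 : Set Edg) ∩ ↑(bx v (2 * (a : ℤ))) ⊆
        ((↑E : Set Edg) ∩ ↑(bx v (2 * (a : ℤ)))) ∪ EN P := by
      rintro e ⟨h1, h2⟩
      rw [hF1, Finset.mem_coe, Finset.mem_union, Finset.mem_filter] at h1
      rcases h1 with h1 | h1
      · exact Or.inl ⟨Finset.mem_coe.mpr h1, h2⟩
      · exact Or.inr h1.2
    obtain ⟨x, hx, hxz⟩ := last_in hvP (h2.mono g3)
    have hxb : inR (v.1 - 2 * (a : ℤ)) (v.1 + 2 * (a : ℤ)) (v.2 - 2 * (a : ℤ))
        (v.2 + 2 * (a : ℤ)) x := reach_in (G := ↑E) hzb hxz.symm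
    obtain ⟨w, K1, K2, hw, hK, _, c2⟩ := touch2 (v := v) (R1 := (a : ℤ)) (R := 2 * (a : ℤ))
      (by omega) (by omega) hz hp (by
        have : (2 * (a : ℤ)) ≤ R := by exact_mod_cast haR
        linarith) hch
    have hreach : Reach (G ∪ ↑X) x w := by
      refine (hxz.trans hw).mono ?_
      rintro e ⟨he, _⟩
      rw [hE, Finset.coe_union] at he
      rcases he with he | he
      · exact Or.inl (hFG he)
      · exact Or.inr he
    have c3 := reach_chain X hreach
    refine ⟨x, hx, q, ?_, hq, (c3.trans c2).mono ?_⟩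
    · have := nmv_box hxb
      linarith
    · rw [hW]
      omega

end Pool.Agent.Z932.NL
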